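import Mathlib
import Pool.Agent.Q113.WF.Laurent

/-!
MP_8879ae_al, Q2 (disproof): a homomorphism `U(W) → Ã₂` that does not factor through any `Ψ_𝐧`.
-/

set_option autoImplicit false

namespace Pool.Agent.Results.MP_8879ae_al.NoFactorLaurent

open Pool.Agent.Q113.WF

/-- Some algebra homomorphism `φ : U(W) → Ã₂` does not factor through `Ψ_𝐧`, for any `ℓ` and any
`𝐧 = (n_1, …, n_ℓ)`. -/
theorem result : ∃ φ : UW →ₐ[ℂ] LA 2, ∀ (ℓ : ℕ) (n : Fin ℓ → ℕ),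
    ∃ Ψ : UW →ₐ[ℂ] LTgt n, IsPsiL n Ψ ∧
      ¬ ∃ ψ : LTgt n →+* LA 2, φ.toRingHom = ψ.comp Ψ.toRingHom :=
  ⟨phiLau, fun _ n => ⟨PsiLau n, isPsi_PsiLau n, fun ⟨ψ, h⟩ => lau_main n ψ h⟩⟩

end Pool.Agent.Results.MP_8879ae_al.NoFactorLaurent
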