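import Mathlib
import Pool.Agent.Q113.WF.Poly

/-!
MP_8879ae_al, Q1 (disproof): a homomorphism `U(W₋₁) → A₂` that does not factor through any `Ψ_𝐧`.
-/

set_option autoImplicit false

namespace Pool.Agent.Results.MP_8879ae_al.NoFactorWeyl

open Pool.Agent.Q113.WF

/-- Some algebra homomorphism `φ : U(W₋₁) → A₂` does not factor through `Ψ_𝐧`, for any `ℓ` and any
`𝐧 = (n_1, …, n_ℓ)`. -/
theorem result : ∃ φ : UWm →ₐ[ℂ] WA 2, ∀ (ℓ : ℕ) (n : Fin ℓ → ℕ),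
    ∃ Ψ : UWm →ₐ[ℂ] Tgt n, IsPsi n Ψ ∧
      ¬ ∃ ψ : Tgt n →+* WA 2, φ.toRingHom = ψ.comp Ψ.toRingHom :=
  ⟨phiPoly, fun _ n => ⟨PsiPoly n, isPsi_PsiPoly n, fun ⟨ψ, h⟩ => poly_main n ψ h⟩⟩

end Pool.Agent.Results.MP_8879ae_al.NoFactorWeyl
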